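import Pool.Agent.W2helper47.FM.Cond2
import Pool.Agent.W2helper47.FM.NotDR

/-!
# Condition (2) does not imply condition (1)

For every number field `F` and every prime `l` there is a continuous irreducible `l`-adic
representation of the absolute Galois group of `F`, unramified outside `l`, the Weil-Deligne
representations of which at all places not above `l` are integral and pure of weight one, and which is
de Rham at no place above `l`. It is the character `ρ = s(χ)⁻¹` with `χ` the cyclotomic character and
`s` a continuous character of `ℤ_lˣ` which is the square root near one, so that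
`s(u) ^ (2 M) = u ^ M` for some `M`. At a place `v` not above `l` a geometric Frobenius has the
eigenvalue `α = s(q_v)`, with `α ^ (2 M) = q_v ^ M`. At a place above `l`, an invariant vector of
`B_dR ⊗ V` has coordinates `b` in `B_dR` with `g b = η(g) b` and `η(g) ^ 2 = χ(g)` for `g` in a
subgroup of finite index, and the theorem of Tate on the invariants of the twists of `ℂ_l` gives
`b = 0`.
-/

set_option autoImplicit false

open NumberField IsDedekindDomain Pool.Agent.W2helper47.FM

theorem Pool.Agent.Results.MP_395897_nt.SqrtCyclotomic.result
    (l : ℕ) [Fact l.Prime] (F : Type*) [Field F] [NumberField F] :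
    ∃ ρ : Gal(AlgebraicClosure F/F) →* GL (Fin 1) (PadicAlgCl l),
      Continuous ρ ∧ IsIrred (linRep ρ) ∧ {v : HeightOneSpectrum (𝓞 F) | ¬ IsUnramifiedAt ρ v}.Finite ∧
        Condition2 ρ ∧ (∀ ι : AlgebraicClosure F →+* PadicAlgCl l, ¬ IsDeRhamAt ι ρ) ∧
          ¬ Condition1 ρ :=
  ⟨rho l F, continuous_rho, isIrred_rho, finite_ramified, condition2_rho, not_deRham,
    not_condition1⟩
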